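import Pool.Agent.Lib.MP_5c6631_lc.Ins

/-!
# Primitive words in `(ab*)^n` are context-free

For every alphabet with two distinct letters `a`, `b` and every natural number `n` the language
`Q ∩ (ab*)^n` of the primitive words in `(ab*)^n` is context-free.  More generally, for every set
`P` of primes the words of `(ab*)^n` which are not `p`-th powers for any `p ∈ P` form a
context-free language.
-/

set_option autoImplicit false

namespace Pool.Agent.Results.MP_5c6631_lc.PrimitiveWords

open Pool.Agent.MP_5c6631_lc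

/-- the power `u^r` of a word -/
def pow {α : Type} (u : List α) (r : ℕ) : List α := (List.replicate r u).flatten

/-- a word is primitive if it is not empty and not of the form `u^r` with `u` non-empty and
`r ≥ 2` -/
def Primitive {α : Type} (w : List α) : Prop :=
  w ≠ [] ∧ ¬ ∃ (u : List α) (r : ℕ), u ≠ [] ∧ 2 ≤ r ∧ w = pow u r

/-- the language `(ab*)^n`: all words `a b^(k_1) a b^(k_2) ⋯ a b^(k_n)` -/
def AB {α : Type} (a b : α) (n : ℕ) : Set (List α) :=
  {w | ∃ k : Fin n → ℕ, w = (List.ofFn (fun i => a :: List.replicate (k i) b)).flatten}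

lemma wordOf_map {α : Type} (a b : α) (n : ℕ) (k : ℕ → ℕ) :
    (wordOf n k).map (fun t : Bool => if t then a else b) =
      (List.ofFn (fun i : Fin n => a :: List.replicate (k i) b)).flatten := by
  induction n with
  | zero => simp [wordOf]
  | succ n ih =>
    have h1 : wordOf (n + 1) k = wordOf n k ++ (true :: List.replicate (k n) false) := by
      simp [wordOf, List.range_succ]
    rw [h1, List.map_append, ih, List.ofFn_succ', List.concat_eq_append, List.flatten_append]
    simp

lemma mem_AB_iff {α : Type} (a b : α) (n : ℕ) (w : List α) :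
    w ∈ AB a b n ↔ ∃ k : ℕ → ℕ, w = (wordOf n k).map (fun t : Bool => if t then a else b) := by
  constructor
  · rintro ⟨k, rfl⟩
    refine ⟨fun i => if h : i < n then k ⟨i, h⟩ else 0, ?_⟩
    rw [wordOf_map]
    congr 2
    funext i
    simp
  · rintro ⟨k, rfl⟩
    exact ⟨fun i => k i, wordOf_map a b n k⟩

lemma map_pow {α β : Type} (f : α → β) (u : List α) (r : ℕ) :
    (pow u r).map f = pow (u.map f) r := by
  unfold pow
  rw [List.map_flatten, List.map_replicate]

lemma pow_succ' {α : Type} (u : List α) (r : ℕ) : pow u (r + 1) = u ++ pow u r := by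
  simp [pow, List.replicate_succ]

lemma pow_mul' {α : Type} (u : List α) (p q : ℕ) : pow (pow u q) p = pow u (p * q) := by
  induction p with
  | zero => simp [pow]
  | succ p ih =>
    rw [pow_succ', ih, Nat.succ_mul, Nat.add_comm (p * q) q]
    unfold pow
    rw [List.replicate_add, List.flatten_append]

theorem cf_general {α : Type} (a b : α) (hab : a ≠ b) (n : ℕ) (P : Set ℕ)
    (hP : ∀ p ∈ P, p.Prime) :
    Language.IsContextFree
      ({w | w ∈ AB a b n ∧ ∀ p ∈ P, ¬ ∃ u : List α, w = pow u p} : Language α) := by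
  set f : Bool → α := fun t => if t then a else b with hf
  have hinj : Function.Injective f := by
    intro s t hst
    cases s <;> cases t <;> simp_all
  have key := Ins.cf_map f (Ins.cf_primes n P hP)
  have hset : ({w | w ∈ AB a b n ∧ ∀ p ∈ P, ¬ ∃ u : List α, w = pow u p} : Language α) =
      ({w | ∃ v ∈ ({w : List Bool | (∃ k : ℕ → ℕ, w = wordOf n k) ∧
        ∀ p ∈ P, ∀ u : List Bool, w ≠ (List.replicate p u).flatten} : Language Bool),
        w = v.map f} : Language α) := by
    apply Set.ext
    intro w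
    constructor
    · rintro ⟨hw, hp⟩
      obtain ⟨k, rfl⟩ := (mem_AB_iff a b n w).1 hw
      refine ⟨wordOf n k, ⟨⟨k, rfl⟩, ?_⟩, rfl⟩
      intro p hpP u hu
      refine hp p hpP ⟨u.map f, ?_⟩
      rw [hu]
      exact map_pow f u p
    · rintro ⟨v, ⟨⟨k, rfl⟩, hv⟩, rfl⟩
      refine ⟨(mem_AB_iff a b n _).2 ⟨k, rfl⟩, ?_⟩
      rintro p hpP ⟨u, hu⟩
      obtain ⟨q, rfl⟩ : ∃ q, p = q + 1 := ⟨p - 1, by have := (hP p hpP).pos; omega⟩
      have h1 := hu
      rw [pow_succ'] at h1
      obtain ⟨v₁, v₂, -, hv1, -⟩ := List.map_eq_append_iff.1 h1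
      subst hv1
      rw [← map_pow] at hu
      exact hv _ hpP v₁ (List.map_injective_iff.2 hinj hu)
  rw [hset]
  exact key

/-- For every alphabet with two distinct letters `a`, `b` and every `n` the language of the
primitive words in `(ab*)^n` is context-free; more generally, for every set `P` of primes the
words of `(ab*)^n` which are not `p`-th powers for any `p ∈ P` form a context-free language. -/
theorem result : ∀ (α : Type) (a b : α), a ≠ b → ∀ n : ℕ,
    Language.IsContextFree ({w | Primitive w ∧ w ∈ AB a b n} : Language α) ∧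
    ∀ P : Set ℕ, (∀ p ∈ P, p.Prime) →
      Language.IsContextFree
        ({w | w ∈ AB a b n ∧ ∀ p ∈ P, ¬ ∃ u : List α, w = pow u p} : Language α) := by
  intro α a b hab n
  refine ⟨?_, fun P hP => cf_general a b hab n P hP⟩
  have h := cf_general a b hab n {p | p.Prime} (fun p hp => hp)
  have hset : ({w | Primitive w ∧ w ∈ AB a b n} : Language α) =
      ({w | w ∈ AB a b n ∧ ∀ p ∈ {p : ℕ | p.Prime}, ¬ ∃ u : List α, w = pow u p} :
        Language α) := by
    apply Set.ext
    intro w
    constructor
    · rintro ⟨⟨h1, h2⟩, h3⟩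
      refine ⟨h3, ?_⟩
      rintro p hp ⟨u, rfl⟩
      refine h2 ⟨u, p, ?_, (show p.Prime from hp).two_le, rfl⟩
      rintro rfl
      apply h1
      simp [pow]
    · rintro ⟨h1, h2⟩
      refine ⟨⟨?_, ?_⟩, h1⟩
      · rintro rfl
        exact h2 2 Nat.prime_two ⟨[], by simp [pow]⟩
      · rintro ⟨u, r, -, hr, rfl⟩
        obtain ⟨p, hp, q, rfl⟩ := Nat.exists_prime_and_dvd (show r ≠ 1 by omega)
        exact h2 p hp ⟨pow u q, (pow_mul' u p q).symm⟩
  rw [hset]
  exact h

end Pool.Agent.Results.MP_5c6631_lc.PrimitiveWords
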